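import Mathlib
import Pool.Agent.Helper85.Arrow.Limit
import Pool.Agent.Helper85.Arrow.Four

/-!
Limits of strict GKK matrices that are not stable: they exist exactly for the orders `n ≥ 5`.
-/

namespace Pool.Agent.Results.MP_175e83_al.StrictUnstable

open Pool.Agent.Helper5.GKK Pool.Agent.Helper85.Arrow
open scoped ComplexOrder

/-- the set of Q1: GKK matrices of order `n` that are limits of strict GKK matrices -/
def LimitsOfStrict (n : ℕ) : Set (Matrix (Fin n) (Fin n) ℂ) :=
  {A | IsGKK A ∧ A ∈ closure {B : Matrix (Fin n) (Fin n) ℂ | IsStrictGKK B}}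

/-- the explicit real matrix with first row `(t, -t(1-e), …)`, first column `(t, -1, …)`, `1` on the
rest of the diagonal, `1-e` elsewhere below the diagonal and `0` elsewhere above -/
def Explicit (n : ℕ) (t e : ℝ) : Matrix (Fin n) (Fin n) ℂ := fun i j =>
  if i = j then (if i.val = 0 then (t : ℂ) else 1) else if i.val = 0 then -(t * (1 - e))
    else if j.val = 0 then -1 else if j < i then 1 - e else 0

theorem explicit_eq (n : ℕ) (t e : ℝ) : Explicit n t e = amc n t e := by
  ext i j
  simp only [Explicit, amc, am, Matrix.map_apply, Matrix.of_apply]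
  split_ifs <;> simp

theorem mem_limits {n : ℕ} {t e : ℝ} (ht : 0 < t) (he : 0 < e) (he1 : e ≤ 1) :
    Explicit n t e ∈ LimitsOfStrict n := by
  rw [explicit_eq]
  refine ⟨isGKK_am ht he he1, ?_⟩
  have h1 := am_mem_closure n ht he.le he1
  have hc : Continuous fun B : Matrix (Fin n) (Fin n) ℝ => B.map (fun x : ℝ => (x : ℂ)) :=
    Continuous.matrix_map continuous_id Complex.continuous_ofReal
  exact map_mem_closure (f := fun B : Matrix (Fin n) (Fin n) ℝ => B.map (fun x : ℝ => (x : ℂ)))
    hc h1 fun B hB => hB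

/-- (1) For every `n ≥ 5` there is a real strict GKK matrix of order `n` with an eigenvalue of
negative real part. (2) The set of Q1 contains a matrix that is not stable if and only if `n ≥ 5`.
(3) The explicit GKK matrices `Explicit n t e` belong to the set of Q1, for all `n`, `t > 0`,
`0 < e ≤ 1`. -/
theorem result :
    (∀ n : ℕ, 5 ≤ n → ∃ A : Matrix (Fin n) (Fin n) ℝ,
      IsStrictGKK (A.map (fun x : ℝ => (x : ℂ))) ∧
      ∃ z ∈ spectrum ℂ (A.map (fun x : ℝ => (x : ℂ))), z.re < 0) ∧
    (∀ n : ℕ, (∃ A ∈ LimitsOfStrict n, ¬ IsStable A) ↔ 5 ≤ n) ∧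
    (∀ (n : ℕ) (t e : ℝ), 0 < t → 0 < e → e ≤ 1 → Explicit n t e ∈ LimitsOfStrict n) := by
  refine ⟨fun n hn => exists_strict_unstable hn, fun n => ⟨?_, fun hn => ?_⟩,
    fun n t e ht he he1 => mem_limits ht he he1⟩
  · rintro ⟨A, hA, hs⟩
    by_contra hc
    exact hs (le_four_stable (by omega) A hA.1)
  · obtain ⟨A, hA, z, hz, hz0⟩ := exists_strict_unstable hn
    refine ⟨A.map (fun x : ℝ => (x : ℂ)), ⟨?_, subset_closure hA⟩, fun h => ?_⟩
    · rw [isStrictGKK_iff] at hA
      rw [isGKK_iff]
      exact ⟨hA.1, fun K i j hi hj hij => (hA.2 K i j hi hj hij).le⟩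
    · have := h z hz
      linarith

end Pool.Agent.Results.MP_175e83_al.StrictUnstable
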